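import Mathlib

set_option autoImplicit false

/-!
# Fréchet algebras, Fréchet modules, injective Fréchet modules

The definitions, and the proof that the algebra of formal power series without constant term has no
non-zero injective Fréchet module.
-/

open Topology Filter

namespace Pool.Agent.TH260.FrInj

universe u v

/-- `E` is a Fréchet space: a complete metrizable locally convex space. -/
class IsFrechetSpace (E : Type u) [AddCommGroup E] [Module ℂ E] [UniformSpace E] : Prop where
  isUniformAddGroup : IsUniformAddGroup E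
  continuousSMul : ContinuousSMul ℂ E
  locallyConvexSpace : LocallyConvexSpace ℝ E
  completeSpace : CompleteSpace E
  metrizableSpace : TopologicalSpace.MetrizableSpace E

attribute [instance] IsFrechetSpace.isUniformAddGroup IsFrechetSpace.continuousSMul
  IsFrechetSpace.locallyConvexSpace IsFrechetSpace.completeSpace IsFrechetSpace.metrizableSpace

/-- `A` is a Fréchet algebra: a Fréchet space with an associative bilinear jointly continuous
multiplication (no unit is required). -/
structure IsFrechetAlgebra (A : Type u) [NonUnitalRing A] [Module ℂ A] [UniformSpace A] :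
    Prop where
  space : IsFrechetSpace A
  smul_mul : ∀ (c : ℂ) (a b : A), (c • a) * b = c • (a * b)
  mul_smul : ∀ (c : ℂ) (a b : A), a * (c • b) = c • (a * b)
  continuous_mul : Continuous fun p : A × A => p.1 * p.2

/-- A Fréchet left module over `A`: a Fréchet space with a bilinear, associative, jointly
continuous left action of `A`. -/
structure FrMod (A : Type u) [NonUnitalRing A] [Module ℂ A] [UniformSpace A] where
  carrier : Type v
  [addCommGroup : AddCommGroup carrier]
  [module : Module ℂ carrier]
  [uniformSpace : UniformSpace carrier]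
  [space : IsFrechetSpace carrier]
  act : A → carrier → carrier
  add_act : ∀ (a b : A) (x : carrier), act (a + b) x = act a x + act b x
  act_add : ∀ (a : A) (x y : carrier), act a (x + y) = act a x + act a y
  smul_act : ∀ (c : ℂ) (a : A) (x : carrier), act (c • a) x = c • act a x
  act_smul : ∀ (c : ℂ) (a : A) (x : carrier), act a (c • x) = c • act a x
  mul_act : ∀ (a b : A) (x : carrier), act (a * b) x = act a (act b x)
  continuous_act : Continuous fun p : A × carrier => act p.1 p.2

attribute [instance] FrMod.addCommGroup FrMod.module FrMod.uniformSpace FrMod.space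

variable {A : Type u} [NonUnitalRing A] [Module ℂ A] [UniformSpace A]

/-- The continuous linear map `φ` is a morphism of Fréchet `A`-modules. -/
def IsMorphism (X Y : FrMod.{u, v} A) (φ : X.carrier →L[ℂ] Y.carrier) : Prop :=
  ∀ (a : A) (x : X.carrier), φ (X.act a x) = Y.act a (φ x)

/-- The Fréchet `A`-module `X` is injective: every morphism `φ : X → Y` that has a continuous linear
left inverse also has a continuous `A`-linear left inverse. -/
def IsInjective (X : FrMod.{u, v} A) : Prop :=
  ∀ (Y : FrMod.{u, v} A) (φ : X.carrier →L[ℂ] Y.carrier), IsMorphism X Y φ →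
    (∃ r : Y.carrier →L[ℂ] X.carrier, ∀ x, r (φ x) = x) →
    ∃ ψ : Y.carrier →L[ℂ] X.carrier, IsMorphism Y X ψ ∧ ∀ x, ψ (φ x) = x

/-! ### Formal power series without constant term -/

open scoped PowerSeries.WithPiTopology

/-- The ideal `z ℂ[[z]]` of the formal power series without constant term. -/
def M0 : NonUnitalSubalgebra ℂ (PowerSeries ℂ) where
  carrier := {f | PowerSeries.coeff 0 f = 0}
  mul_mem' := by
    intro f g hf hg
    simp only [Set.mem_ofPred_eq] at hf hg ⊢
    rw [PowerSeries.coeff_mul]
    simp [hf]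
  add_mem' := by
    intro f g hf hg
    simp only [Set.mem_ofPred_eq] at hf hg ⊢
    rw [map_add, hf, hg, add_zero]
  zero_mem' := by simp
  smul_mem' := by
    intro c f hf
    simp only [Set.mem_ofPred_eq] at hf ⊢
    rw [map_smul, hf, smul_zero]

lemma mem_M0 (f : PowerSeries ℂ) : f ∈ M0 ↔ PowerSeries.coeff 0 f = 0 := Iff.rfl


lemma continuous_of_coeff {T : Type*} [TopologicalSpace T] {f : T → PowerSeries ℂ}
    (h : ∀ n, Continuous fun t => PowerSeries.coeff n (f t)) : Continuous f := by
  refine continuous_pi (A := fun _ : (Unit →₀ ℕ) => ℂ) fun d => ?_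
  have h1 := h (d ())
  have h2 : (fun t => f t d) = fun t => PowerSeries.coeff (d ()) (f t) := by
    funext t
    rw [PowerSeries.coeff_def (s := d) rfl]
    rfl
  exact h2 ▸ h1

lemma isClosed_M0 : IsClosed (M0 : Set (PowerSeries ℂ)) := by
  have h : (M0 : Set (PowerSeries ℂ)) = (PowerSeries.coeff (R := ℂ) 0) ⁻¹' {0} := rfl
  rw [h]
  exact isClosed_singleton.preimage (PowerSeries.WithPiTopology.continuous_coeff (R := ℂ) 0)

instance : LocallyConvexSpace ℝ (PowerSeries ℂ) :=
  inferInstanceAs (LocallyConvexSpace ℝ ((Unit →₀ ℕ) → ℂ))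

instance : TopologicalSpace.MetrizableSpace (PowerSeries ℂ) :=
  inferInstanceAs (TopologicalSpace.MetrizableSpace ((Unit →₀ ℕ) → ℂ))

instance : ContinuousSMul ℂ (PowerSeries ℂ) :=
  inferInstanceAs (ContinuousSMul ℂ ((Unit →₀ ℕ) → ℂ))

instance : IsFrechetSpace M0 where
  isUniformAddGroup := by
    have : IsUniformInducing (Subtype.val : M0 → PowerSeries ℂ) := isUniformInducing_val _
    exact this.isUniformAddGroup (M0.toNonUnitalSubring.toAddSubgroup.subtype)
  continuousSMul := by
    refine ⟨?_⟩
    refine Continuous.subtype_mk ?_ _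
    exact (continuous_fst.smul (continuous_subtype_val.comp continuous_snd))
  locallyConvexSpace := by
    have : Topology.IsInducing (Subtype.val : M0 → PowerSeries ℂ) := Topology.IsInducing.subtypeVal
    exact this.locallyConvexSpace (f := (M0.toSubmodule.subtype.restrictScalars ℝ))
  completeSpace := isClosed_M0.completeSpace_coe
  metrizableSpace := Topology.IsEmbedding.subtypeVal.metrizableSpace

theorem isFrechetAlgebra_M0 : IsFrechetAlgebra M0 where
  space := inferInstance
  smul_mul c a b := smul_mul_assoc c a b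
  mul_smul c a b := mul_smul_comm c a b
  continuous_mul := by
    refine Continuous.subtype_mk ?_ _
    exact (continuous_subtype_val.comp continuous_fst).mul
      (continuous_subtype_val.comp continuous_snd)

/-! ### Division by the variable -/

/-- `(a_1 z + a_2 z^2 + ...) / z`. -/
noncomputable def dvz (a : M0) : PowerSeries ℂ :=
  PowerSeries.mk fun n => PowerSeries.coeff (n + 1) (a : PowerSeries ℂ)

lemma coeff_dvz (a : M0) (n : ℕ) :
    PowerSeries.coeff n (dvz a) = PowerSeries.coeff (n + 1) (a : PowerSeries ℂ) := by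
  simp [dvz]

/-- The coefficient of `z`. -/
noncomputable def hd (a : M0) : ℂ := PowerSeries.coeff 1 (a : PowerSeries ℂ)

/-- `a_2 z + a_3 z^2 + ...`. -/
noncomputable def tl (a : M0) : M0 :=
  ⟨dvz a - PowerSeries.C (hd a), by
    rw [mem_M0, map_sub, coeff_dvz, PowerSeries.coeff_zero_C, hd, zero_add, sub_self]⟩

lemma coe_tl (a : M0) : (tl a : PowerSeries ℂ) = dvz a - PowerSeries.C (hd a) := rfl

lemma coeff_tl (a : M0) (n : ℕ) : PowerSeries.coeff (n + 1) (tl a : PowerSeries ℂ) =
    PowerSeries.coeff (n + 2) (a : PowerSeries ℂ) := by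
  rw [coe_tl, map_sub, coeff_dvz, PowerSeries.coeff_succ_C, sub_zero]

lemma ext_M0 {a b : M0} (h : ∀ n, PowerSeries.coeff (n + 1) (a : PowerSeries ℂ) =
    PowerSeries.coeff (n + 1) (b : PowerSeries ℂ)) : a = b := by
  apply Subtype.ext
  ext n
  cases n with
  | zero => rw [(mem_M0 _).1 a.2, (mem_M0 _).1 b.2]
  | succ n => exact h n

lemma hd_add (a b : M0) : hd (a + b) = hd a + hd b := by
  show PowerSeries.coeff 1 ((a : PowerSeries ℂ) + (b : PowerSeries ℂ)) = _
  rw [map_add]
  rfl

lemma hd_smul (c : ℂ) (a : M0) : hd (c • a) = c * hd a := by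
  show PowerSeries.coeff 1 (c • (a : PowerSeries ℂ)) = _
  rw [map_smul]
  rfl

lemma tl_add (a b : M0) : tl (a + b) = tl a + tl b := by
  refine ext_M0 fun n => ?_
  rw [coeff_tl]
  show PowerSeries.coeff (n + 2) ((a : PowerSeries ℂ) + (b : PowerSeries ℂ)) =
    PowerSeries.coeff (n + 1) ((tl a : PowerSeries ℂ) + (tl b : PowerSeries ℂ))
  rw [map_add, map_add, coeff_tl, coeff_tl]

lemma tl_smul (c : ℂ) (a : M0) : tl (c • a) = c • tl a := by
  refine ext_M0 fun n => ?_
  rw [coeff_tl]
  show PowerSeries.coeff (n + 2) (c • (a : PowerSeries ℂ)) =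
    PowerSeries.coeff (n + 1) (c • (tl a : PowerSeries ℂ))
  rw [map_smul, map_smul, coeff_tl]

lemma X_mul_dvz (a : M0) : PowerSeries.X * dvz a = (a : PowerSeries ℂ) := by
  ext n
  cases n with
  | zero =>
    rw [(mem_M0 _).1 a.2]
    simp
  | succ n => rw [PowerSeries.coeff_succ_X_mul, coeff_dvz]

lemma dvz_mul (a b : M0) : dvz (a * b) = a * dvz b := by
  have h : PowerSeries.X * dvz (a * b) = PowerSeries.X * ((a : PowerSeries ℂ) * dvz b) := by
    rw [X_mul_dvz, mul_left_comm, X_mul_dvz]
    rfl
  exact mul_left_cancel₀ PowerSeries.X_ne_zero h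

lemma hd_mul (a b : M0) : hd (a * b) = 0 := by
  have h := coeff_dvz (a * b) 0
  rw [dvz_mul] at h
  show PowerSeries.coeff (0 + 1) ((a * b : M0) : PowerSeries ℂ) = 0
  rw [← h, PowerSeries.coeff_mul]
  simp [(mem_M0 _).1 a.2]

lemma tl_mul (a b : M0) : tl (a * b) = hd b • a + a * tl b := by
  apply Subtype.ext
  rw [coe_tl, hd_mul, dvz_mul, map_zero, sub_zero]
  show (a : PowerSeries ℂ) * dvz b = hd b • (a : PowerSeries ℂ) + a * (dvz b - PowerSeries.C (hd b))
  rw [PowerSeries.smul_eq_C_mul]
  ring

lemma continuous_hd : Continuous hd :=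
  (PowerSeries.WithPiTopology.continuous_coeff (R := ℂ) 1).comp continuous_subtype_val

lemma continuous_tl : Continuous tl := by
  refine Continuous.subtype_mk (continuous_of_coeff fun n => ?_) _
  cases n with
  | zero =>
    have : (fun t : M0 => PowerSeries.coeff 0 (dvz t - PowerSeries.C (hd t))) = fun _ => (0 : ℂ) := by
      funext t
      exact (mem_M0 _).1 (tl t).2
    rw [this]
    exact continuous_const
  | succ n =>
    have : (fun t : M0 => PowerSeries.coeff (n + 1) (dvz t - PowerSeries.C (hd t))) =
        fun t : M0 => PowerSeries.coeff (n + 2) (t : PowerSeries ℂ) := by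
      funext t
      exact coeff_tl t n
    rw [this]
    exact (PowerSeries.WithPiTopology.continuous_coeff (R := ℂ) (n + 2)).comp continuous_subtype_val

/-- The variable `z`. -/
noncomputable def zz : M0 := ⟨PowerSeries.X, by rw [mem_M0]; simp⟩

lemma hd_zz : hd zz = 1 := by
  show PowerSeries.coeff 1 (PowerSeries.X : PowerSeries ℂ) = 1
  simp

lemma tl_zz : tl zz = 0 := by
  refine ext_M0 fun n => ?_
  rw [coeff_tl]
  show PowerSeries.coeff (n + 2) (PowerSeries.X : PowerSeries ℂ) = PowerSeries.coeff (n + 1) 0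
  rw [PowerSeries.coeff_X, map_zero, if_neg (by omega)]

/-! ### The extension of a module by a solution of `z y = x` -/

variable (X : FrMod.{0, v} M0)

lemma FrMod.act_zero {A : Type u} [NonUnitalRing A] [Module ℂ A] [UniformSpace A]
    (X : FrMod.{u, v} A) (a : A) : X.act a 0 = 0 := by
  have := X.act_smul 0 a 0
  rwa [zero_smul, zero_smul] at this

lemma FrMod.zero_act {A : Type u} [NonUnitalRing A] [Module ℂ A] [UniformSpace A]
    (X : FrMod.{u, v} A) (x : X.carrier) : X.act 0 x = 0 := by
  have := X.smul_act 0 0 x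
  rwa [zero_smul, zero_smul] at this

/-- `(a / z) x`. -/
noncomputable def dact (a : M0) (x : X.carrier) : X.carrier := hd a • x + X.act (tl a) x

lemma dact_add (a b : M0) (x : X.carrier) : dact X (a + b) x = dact X a x + dact X b x := by
  simp only [dact, hd_add, tl_add, X.add_act, add_smul]
  abel

lemma dact_smul (c : ℂ) (a : M0) (x : X.carrier) : dact X (c • a) x = c • dact X a x := by
  simp only [dact, hd_smul, tl_smul, X.smul_act, mul_smul, smul_add]

lemma dact_mul (a b : M0) (x : X.carrier) : dact X (a * b) x = X.act a (dact X b x) := by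
  simp only [dact, hd_mul, tl_mul, X.add_act, X.smul_act, X.mul_act, X.act_add, X.act_smul,
    zero_smul, zero_add]

lemma continuous_dact (x : X.carrier) : Continuous fun a => dact X a x := by
  have h1 : Continuous fun a : M0 => X.act (tl a) x :=
    X.continuous_act.comp (continuous_tl.prodMk continuous_const)
  exact (continuous_hd.smul continuous_const).add h1

instance instProd (E : Type v) [AddCommGroup E] [Module ℂ E] [UniformSpace E] [IsFrechetSpace E] :
    IsFrechetSpace (E × ℂ) where
  isUniformAddGroup := inferInstance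
  continuousSMul := inferInstance
  locallyConvexSpace := inferInstance
  completeSpace := inferInstance
  metrizableSpace := inferInstance

/-- The module `X ⊕ ℂ y` with `z y = x`. -/
noncomputable def ext (x : X.carrier) : FrMod.{0, v} M0 where
  carrier := X.carrier × ℂ
  act a p := (X.act a p.1 + p.2 • dact X a x, 0)
  add_act a b p := by
    refine Prod.ext ?_ (by simp)
    show X.act (a + b) p.1 + p.2 • dact X (a + b) x = (X.act a p.1 + p.2 • dact X a x) +
      (X.act b p.1 + p.2 • dact X b x)
    rw [X.add_act, dact_add, smul_add]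
    abel
  act_add a p q := by
    refine Prod.ext ?_ (by simp)
    show X.act a (p.1 + q.1) + (p.2 + q.2) • dact X a x = (X.act a p.1 + p.2 • dact X a x) +
      (X.act a q.1 + q.2 • dact X a x)
    rw [X.act_add, add_smul]
    abel
  smul_act c a p := by
    refine Prod.ext ?_ (by simp)
    show X.act (c • a) p.1 + p.2 • dact X (c • a) x = c • (X.act a p.1 + p.2 • dact X a x)
    rw [X.smul_act, dact_smul, smul_add, smul_comm]
  act_smul c a p := by
    refine Prod.ext ?_ (by simp)
    show X.act a (c • p.1) + (c * p.2) • dact X a x = c • (X.act a p.1 + p.2 • dact X a x)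
    rw [X.act_smul, smul_add, mul_smul]
  mul_act a b p := by
    refine Prod.ext ?_ (by simp)
    show X.act (a * b) p.1 + p.2 • dact X (a * b) x =
      X.act a (X.act b p.1 + p.2 • dact X b x) + (0 : ℂ) • dact X a x
    rw [X.mul_act, dact_mul, X.act_add, X.act_smul, zero_smul, add_zero]
  continuous_act := by
    refine Continuous.prodMk ?_ continuous_const
    refine Continuous.add ?_ ?_
    · exact X.continuous_act.comp (continuous_fst.prodMk (continuous_fst.comp continuous_snd))
    · exact (continuous_snd.comp continuous_snd).smul ((continuous_dact X x).comp continuous_fst)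

/-- An injective module is divisible by `z`. -/
lemma divisible (hX : IsInjective X) (x : X.carrier) : ∃ y, X.act zz y = x := by
  obtain ⟨ψ, hψ, h1⟩ := hX (ext X x) (ContinuousLinearMap.inl ℂ X.carrier ℂ)
    (by
      intro a x'
      show ((X.act a x', 0) : X.carrier × ℂ) = (X.act a x' + (0 : ℂ) • dact X a x, 0)
      rw [zero_smul, add_zero])
    ⟨ContinuousLinearMap.fst ℂ X.carrier ℂ, fun _ => rfl⟩
  refine ⟨ψ (((0 : X.carrier), (1 : ℂ)) : X.carrier × ℂ), ?_⟩
  rw [← hψ zz (((0 : X.carrier), (1 : ℂ)) : X.carrier × ℂ)]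
  have h2 : (ext X x).act zz (((0 : X.carrier), (1 : ℂ)) : X.carrier × ℂ) =
      ContinuousLinearMap.inl ℂ X.carrier ℂ x := by
    show ((X.act zz 0 + (1 : ℂ) • dact X zz x, 0) : X.carrier × ℂ) = (x, 0)
    rw [X.act_zero, dact, hd_zz, tl_zz, X.zero_act]
    simp
  rw [h2]
  exact h1 x

/-- The powers `z ^ (n + 1)`. -/
noncomputable def zp (n : ℕ) : M0 := ⟨PowerSeries.X ^ (n + 1), by
  rw [mem_M0, PowerSeries.coeff_X_pow, if_neg (by omega)]⟩

lemma zp_succ (n : ℕ) : zp (n + 1) = zz * zp n := by
  apply Subtype.ext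
  show PowerSeries.X ^ (n + 1 + 1) = PowerSeries.X * PowerSeries.X ^ (n + 1)
  rw [pow_succ']

lemma divisible_pow (hX : IsInjective X) (n : ℕ) (x : X.carrier) : ∃ y, X.act (zp n) y = x := by
  induction n generalizing x with
  | zero =>
    obtain ⟨y, hy⟩ := divisible X hX x
    refine ⟨y, ?_⟩
    have : zp 0 = zz := Subtype.ext (by
      show PowerSeries.X ^ (0 + 1) = PowerSeries.X
      rw [zero_add, pow_one])
    rw [this, hy]
  | succ n ih =>
    obtain ⟨y, hy⟩ := divisible X hX x
    obtain ⟨w, hw⟩ := ih y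
    exact ⟨w, by rw [zp_succ, X.mul_act, hw, hy]⟩

/-- Every neighbourhood of zero in the algebra contains all scalar multiples of a power of `z`. -/
lemma exists_zp {V : Set M0} (hV : V ∈ 𝓝 (0 : M0)) : ∃ n, ∀ c : ℂ, c • zp n ∈ V := by
  by_contra hcon
  push Not at hcon
  choose c hc using hcon
  have h1 : Tendsto (fun n => c n • zp n) atTop (𝓝 (0 : M0)) := by
    rw [tendsto_subtype_rng, PowerSeries.WithPiTopology.tendsto_iff_coeff_tendsto]
    intro d
    refine tendsto_const_nhds.congr' ?_
    filter_upwards [eventually_ge_atTop d] with n hn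
    show PowerSeries.coeff d 0 = PowerSeries.coeff d (c n • (PowerSeries.X : PowerSeries ℂ) ^ (n + 1))
    rw [map_smul, PowerSeries.coeff_X_pow, if_neg (by omega), smul_zero, map_zero]
  obtain ⟨n, hn⟩ := (h1.eventually hV).exists
  exact hc n hn

/-- The algebra `z ℂ[[z]]` has no non-zero injective Fréchet module. -/
theorem eq_zero (hX : IsInjective X) (x : X.carrier) : x = 0 := by
  by_contra hne
  obtain ⟨U, hU, hxU⟩ : ∃ U ∈ 𝓝 (0 : X.carrier), x ∉ U :=
    ⟨{x}ᶜ, isOpen_compl_singleton.mem_nhds (Ne.symm hne), by simp⟩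
  have hc : Tendsto (fun p : M0 × X.carrier => X.act p.1 p.2) (𝓝 (0, 0)) (𝓝 0) := by
    have := X.continuous_act.tendsto ((0 : M0), (0 : X.carrier))
    rwa [X.act_zero] at this
  obtain ⟨V, hV, W, hW, hVW⟩ := mem_nhds_prod_iff.1 (hc hU)
  obtain ⟨n, hn⟩ := exists_zp hV
  obtain ⟨y, hy⟩ := divisible_pow X hX n x
  have h1 : Tendsto (fun t : ℝ => (t : ℂ) • y) (𝓝 0) (𝓝 0) := by
    have h2 : Continuous fun t : ℝ => (t : ℂ) • y :=
      Complex.continuous_ofReal.smul continuous_const
    have h3 := h2.tendsto 0
    simpa using h3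
  obtain ⟨t, ht0, ht⟩ : ∃ t : ℝ, t ≠ 0 ∧ (t : ℂ) • y ∈ W := by
    have h4 : ∀ᶠ t : ℝ in 𝓝[≠] 0, (t : ℂ) • y ∈ W := (h1.eventually hW).filter_mono nhdsWithin_le_nhds
    obtain ⟨t, ht, ht'⟩ := (h4.and self_mem_nhdsWithin).exists
    exact ⟨t, ht', ht⟩
  have h5 : X.act ((t : ℂ)⁻¹ • zp n) ((t : ℂ) • y) ∈ U :=
    hVW (Set.mk_mem_prod (hn _) ht)
  rw [X.smul_act, X.act_smul, hy, smul_smul, inv_mul_cancel₀ (by exact_mod_cast ht0), one_smul] at h5
  exact hxU h5

end Pool.Agent.TH260.FrInj
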